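import Mathlib

set_option autoImplicit false

namespace Pool.Agent.Results.MP_9317e9_co.FiniteTail

section Aux
open Set

universe u
variable {V : Type u}

/-- `A` is a quasi-kernel of the subdigraph induced on `W`. -/
def QK (r : V → V → Prop) (W A : Set V) : Prop :=
  A ⊆ W ∧ (∀ a ∈ A, ∀ b ∈ A, ¬ r a b) ∧
    ∀ v ∈ W, v ∈ A ∨ ∃ a ∈ A, r a v ∨ ∃ u ∈ W, r a u ∧ r u v

/-- The induced subdigraph on `S` has a partition into a part with a quasi-kernel and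
a part with a quasi-sink. -/
def Good (r : V → V → Prop) (S : Set V) : Prop :=
  ∃ W ⊆ S, (∃ A, QK r W A) ∧ ∃ B, QK (fun u v => r v u) (S \ W) B

/-- Every subset of `S` is good. -/
def HGood (r : V → V → Prop) (S : Set V) : Prop := ∀ T ⊆ S, Good r T

theorem lemR (r : V → V → Prop) {S P Q : Set V} (hP : P ⊆ S) (hQ : Q ⊆ S)
    (hd : ∀ v ∈ P, v ∉ Q)
    (iP : ∀ a ∈ P, ∀ b ∈ P, ¬ r a b) (iQ : ∀ a ∈ Q, ∀ b ∈ Q, ¬ r a b)
    (h : Good r {v | v ∈ S ∧ v ∉ P ∧ v ∉ Q ∧ (∀ p ∈ P, ¬ r p v) ∧ (∀ q ∈ Q, ¬ r v q)}) :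
    Good r S := by
  classical
  obtain ⟨W0, hW0, ⟨A, hAW, hAi, hAc⟩, ⟨B, hBW, hBi, hBc⟩⟩ := h
  have hW0' : ∀ v ∈ W0, v ∈ S ∧ v ∉ P ∧ v ∉ Q ∧ (∀ p ∈ P, ¬ r p v) ∧ (∀ q ∈ Q, ¬ r v q) :=
    fun v hv => hW0 hv
  have hA' : ∀ v ∈ A, v ∈ S ∧ v ∉ P ∧ v ∉ Q ∧ (∀ p ∈ P, ¬ r p v) ∧ (∀ q ∈ Q, ¬ r v q) :=
    fun v hv => hW0 (hAW hv)
  have hB' : ∀ v ∈ B, (v ∈ S ∧ v ∉ P ∧ v ∉ Q ∧ (∀ p ∈ P, ¬ r p v) ∧ (∀ q ∈ Q, ¬ r v q)) ∧
      v ∉ W0 := fun v hv => hBW hv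
  refine ⟨W0 ∪ P ∪ {v | v ∈ S ∧ v ∉ Q ∧ ∃ p ∈ P, r p v}, ?_,
    ⟨A ∪ {p | p ∈ P ∧ ∀ a ∈ A, ¬ r a p}, ?_, ?_, ?_⟩,
    ⟨B ∪ {q | q ∈ Q ∧ ∀ b ∈ B, ¬ r q b}, ?_, ?_, ?_⟩⟩
  · rintro v ((hv | hv) | hv)
    · exact (hW0' v hv).1
    · exact hP hv
    · exact hv.1
  · rintro v (hv | hv)
    · exact Or.inl (Or.inl (hAW hv))
    · exact Or.inl (Or.inr hv.1)
  · rintro a (ha | ha) b (hb | hb)
    · exact hAi a ha b hb
    · exact hb.2 a ha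
    · exact (hA' b hb).2.2.2.1 a ha.1
    · exact iP a ha.1 b hb.1
  · have key : ∀ p ∈ P, ∀ v, r p v →
        ∃ a ∈ A ∪ {p | p ∈ P ∧ ∀ a ∈ A, ¬ r a p}, r a v ∨
          ∃ u ∈ W0 ∪ P ∪ {v | v ∈ S ∧ v ∉ Q ∧ ∃ p ∈ P, r p v}, r a u ∧ r u v := by
      intro p hp v hpv
      by_cases hp' : ∀ a ∈ A, ¬ r a p
      · exact ⟨p, Or.inr ⟨hp, hp'⟩, Or.inl hpv⟩
      · push Not at hp'
        obtain ⟨a, ha, hap⟩ := hp'
        exact ⟨a, Or.inl ha, Or.inr ⟨p, Or.inl (Or.inr hp), hap, hpv⟩⟩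
    rintro v ((hv | hv) | hv)
    · rcases hAc v hv with h1 | ⟨a, ha, h1 | ⟨u, hu, h1, h2⟩⟩
      · exact Or.inl (Or.inl h1)
      · exact Or.inr ⟨a, Or.inl ha, Or.inl h1⟩
      · exact Or.inr ⟨a, Or.inl ha, Or.inr ⟨u, Or.inl (Or.inl hu), h1, h2⟩⟩
    · by_cases hp' : ∀ a ∈ A, ¬ r a v
      · exact Or.inl (Or.inr ⟨hv, hp'⟩)
      · push Not at hp'
        obtain ⟨a, ha, hap⟩ := hp'
        exact Or.inr ⟨a, Or.inl ha, Or.inl hap⟩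
    · obtain ⟨-, -, p, hp, hpv⟩ := hv
      exact Or.inr (key p hp v hpv)
  · have hQW : ∀ q ∈ Q, q ∈ S \ (W0 ∪ P ∪ {v | v ∈ S ∧ v ∉ Q ∧ ∃ p ∈ P, r p v}) := by
      intro q hq
      refine ⟨hQ hq, ?_⟩
      rintro ((h1 | h1) | h1)
      · exact (hW0' q h1).2.2.1 hq
      · exact hd q h1 hq
      · exact h1.2.1 hq
    rintro v (hv | hv)
    · have := hB' v hv
      refine ⟨this.1.1, ?_⟩
      rintro ((h1 | h1) | h1)
      · exact this.2 h1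
      · exact this.1.2.1 h1
      · obtain ⟨-, -, p, hp, hpv⟩ := h1
        exact this.1.2.2.2.1 p hp hpv
    · exact hQW v hv.1
  · rintro a (ha | ha) b (hb | hb)
    · exact hBi a ha b hb
    · exact fun h2 => hb.2 a ha h2
    · intro h2
      exact (hB' b hb).1.2.2.2.2 a ha.1 h2
    · exact fun h2 => iQ b hb.1 a ha.1 h2
  · have hQW : ∀ q ∈ Q, q ∈ S \ (W0 ∪ P ∪ {v | v ∈ S ∧ v ∉ Q ∧ ∃ p ∈ P, r p v}) := by
      intro q hq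
      refine ⟨hQ hq, ?_⟩
      rintro ((h1 | h1) | h1)
      · exact (hW0' q h1).2.2.1 hq
      · exact hd q h1 hq
      · exact h1.2.1 hq
    rintro v ⟨hvS, hvW⟩
    have hvW0 : v ∉ W0 := fun h => hvW (Or.inl (Or.inl h))
    have hvP : v ∉ P := fun h => hvW (Or.inl (Or.inr h))
    by_cases hvQ : v ∈ Q
    · by_cases hq' : ∀ b ∈ B, ¬ r v b
      · exact Or.inl (Or.inr ⟨hvQ, hq'⟩)
      · push Not at hq'
        obtain ⟨b, hb, hvb⟩ := hq'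
        exact Or.inr ⟨b, Or.inl hb, Or.inl hvb⟩
    · have hnp : ∀ p ∈ P, ¬ r p v := fun p hp hpv => hvW (Or.inr ⟨hvS, hvQ, p, hp, hpv⟩)
      by_cases hvq : ∀ q ∈ Q, ¬ r v q
      · have hvR : v ∈ {v | v ∈ S ∧ v ∉ P ∧ v ∉ Q ∧ (∀ p ∈ P, ¬ r p v) ∧
            (∀ q ∈ Q, ¬ r v q)} \ W0 := ⟨⟨hvS, hvP, hvQ, hnp, hvq⟩, hvW0⟩
        rcases hBc v hvR with h1 | ⟨b, hb, h1 | ⟨u, hu, h1, h2⟩⟩
        · exact Or.inl (Or.inl h1)
        · exact Or.inr ⟨b, Or.inl hb, Or.inl h1⟩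
        · refine Or.inr ⟨b, Or.inl hb, Or.inr ⟨u, ⟨hu.1.1, ?_⟩, h1, h2⟩⟩
          rintro ((h3 | h3) | h3)
          · exact hu.2 h3
          · exact hu.1.2.1 h3
          · obtain ⟨-, -, p, hp, hpu⟩ := h3
            exact hu.1.2.2.2.1 p hp hpu
      · push Not at hvq
        obtain ⟨q, hq, hvq⟩ := hvq
        by_cases hq' : ∀ b ∈ B, ¬ r q b
        · exact Or.inr ⟨q, Or.inr ⟨hq, hq'⟩, Or.inl hvq⟩
        · push Not at hq'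
          obtain ⟨b, hb, hqb⟩ := hq'
          exact Or.inr ⟨b, Or.inl hb, Or.inr ⟨q, hQW q hq, hqb, hvq⟩⟩

theorem exists_max_indep (r : V → V → Prop) (hl : ∀ v, ¬ r v v) (S : Set V) :
    ∃ Q ⊆ S, (∀ a ∈ Q, ∀ b ∈ Q, ¬ r a b) ∧
      ∀ v ∈ S, v ∉ Q → ∃ q ∈ Q, r q v ∨ r v q := by
  obtain ⟨Q, hQ⟩ := zorn_subset {T : Set V | T ⊆ S ∧ ∀ a ∈ T, ∀ b ∈ T, ¬ r a b} (by
    intro c hc hchain
    refine ⟨⋃₀ c, ⟨?_, ?_⟩, fun s hs => subset_sUnion_of_mem hs⟩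
    · exact sUnion_subset fun t ht => (hc ht).1
    · rintro a ⟨s, hs, ha⟩ b ⟨t, ht, hb⟩
      rcases hchain.total hs ht with h | h
      · exact (hc ht).2 a (h ha) b hb
      · exact (hc hs).2 a ha b (h hb))
  refine ⟨Q, hQ.prop.1, hQ.prop.2, ?_⟩
  intro v hv hvQ
  by_contra hcon
  push Not at hcon
  have : insert v Q ⊆ Q := by
    apply hQ.le_of_ge
    · refine ⟨insert_subset hv hQ.prop.1, ?_⟩
      rintro a (rfl | ha) b (rfl | hb)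
      · exact hl _
      · exact (hcon b hb).2
      · exact (hcon a ha).1
      · exact hQ.prop.2 a ha b hb
    · exact subset_insert _ _
  exact hvQ (this (mem_insert _ _))

theorem lemK (r : V → V → Prop) (hl : ∀ v, ¬ r v v) (S : Set V) (h : ¬ Good r S) :
    ∃ x ∈ S, ∃ R : Set V, (∀ v ∈ R, v ∈ S ∧ v ≠ x ∧ ¬ r x v ∧ ¬ r v x) ∧ ¬ Good r R := by
  obtain ⟨Q, hQS, hQi, hQm⟩ := exists_max_indep r hl S
  have hnot : ∃ x ∈ S, ¬ (x ∈ Q ∨ ∃ a ∈ Q, r a x ∨ ∃ u ∈ S, r a u ∧ r u x) := by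
    by_contra hcon
    push Not at hcon
    apply h
    exact ⟨S, Subset.rfl, ⟨Q, hQS, hQi, hcon⟩, ⟨∅, by simp, by simp, by simp⟩⟩
  obtain ⟨x, hxS, hx⟩ := hnot
  push Not at hx
  obtain ⟨hxQ, hx⟩ := hx
  refine ⟨x, hxS, _, ?_, fun hg => h (lemR r (P := {x}) (Q := Q) (by simpa using hxS) hQS
    (by simpa using hxQ) (by simpa using hl x) hQi hg)⟩
  rintro v ⟨hvS, hvx, hvQ, h1, h2⟩
  refine ⟨hvS, hvx, h1 x rfl, ?_⟩
  intro hvx'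
  obtain ⟨q, hq, h3 | h3⟩ := hQm v hvS hvQ
  · exact (hx q hq).2 v hvS h3 hvx'
  · exact h2 q hq h3

theorem exists_seq (r : V → V → Prop) (hl : ∀ v, ¬ r v v) (S : Set V) (h : ¬ Good r S) :
    ∃ (x : ℕ → V) (R : ℕ → Set V), R 0 = S ∧ (∀ n, ¬ Good r (R n)) ∧ (∀ n, x n ∈ R n) ∧
      ∀ n, ∀ v ∈ R (n + 1), v ∈ R n ∧ v ≠ x n ∧ ¬ r (x n) v ∧ ¬ r v (x n) := by
  classical
  choose f hf g hg hgb using lemK r hl
  let st : ℕ → {T : Set V // ¬ Good r T} := fun n =>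
    Nat.rec ⟨S, h⟩ (fun _ T => ⟨g T.1 T.2, hgb T.1 T.2⟩) n
  refine ⟨fun n => f (st n).1 (st n).2, fun n => (st n).1, rfl, fun n => (st n).2,
    fun n => hf _ _, ?_⟩
  intro n v hv
  exact hg (st n).1 (st n).2 v hv

theorem seq_facts (r : V → V → Prop) (x : ℕ → V) (R : ℕ → Set V)
    (hx : ∀ n, x n ∈ R n)
    (hR : ∀ n, ∀ v ∈ R (n + 1), v ∈ R n ∧ v ≠ x n ∧ ¬ r (x n) v ∧ ¬ r v (x n)) :
    (∀ m n, m ≤ n → R n ⊆ R m) ∧
    (∀ i n, i < n → ∀ v ∈ R n, v ≠ x i ∧ ¬ r (x i) v ∧ ¬ r v (x i)) ∧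
    (∀ i j, i ≠ j → x i ≠ x j ∧ ¬ r (x i) (x j)) := by
  have h1 : ∀ m n, m ≤ n → R n ⊆ R m := by
    intro m n hmn
    induction hmn with
    | refl => exact Subset.rfl
    | step _ ih => exact fun v hv => ih (hR _ v hv).1
  have h2 : ∀ i n, i < n → ∀ v ∈ R n, v ≠ x i ∧ ¬ r (x i) v ∧ ¬ r v (x i) := by
    intro i n hin v hv
    exact (hR i v (h1 (i + 1) n hin hv)).2
  refine ⟨h1, h2, ?_⟩
  intro i j hij
  rcases lt_or_gt_of_ne hij with h | h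
  · have := h2 i j h (x j) (hx j)
    exact ⟨fun e => this.1 e.symm, this.2.1⟩
  · have := h2 j i h (x i) (hx i)
    exact ⟨this.1, this.2.2⟩

theorem hgood_of_finite_indep (r : V → V → Prop) (hl : ∀ v, ¬ r v v) (F : Set V)
    (hF : ∀ T ⊆ F, (∀ a ∈ T, ∀ b ∈ T, ¬ r a b) → T.Finite) : HGood r F := by
  intro T hT
  by_contra hbad
  obtain ⟨x, R, hR0, -, hx, hR⟩ := exists_seq r hl T hbad
  obtain ⟨h1, -, h3⟩ := seq_facts r x R hx hR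
  have hsub : range x ⊆ F := by
    rintro _ ⟨n, rfl⟩
    exact hT (hR0 ▸ h1 0 n (Nat.zero_le n) (hx n))
  have hfin := hF (range x) hsub (by
    rintro _ ⟨i, rfl⟩ _ ⟨j, rfl⟩
    by_cases hij : i = j
    · subst hij; exact hl _
    · exact (h3 i j hij).2)
  have hinj : Function.Injective x := by
    intro i j hij
    by_contra hne
    exact (h3 i j hne).1 hij
  exact (infinite_range_of_injective hinj) hfin

theorem hgood_union (r : V → V → Prop) (H I : Set V) (hH : HGood r H)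
    (hI : ∀ a ∈ I, ∀ b ∈ I, ¬ r a b) : HGood r (H ∪ I) := by
  intro T hT
  apply lemR r (S := T) (P := T ∩ I) (Q := ∅) inter_subset_left (empty_subset _) (by simp)
    (fun a ha b hb => hI a ha.2 b hb.2) (by simp)
  apply hH
  rintro v ⟨hvT, hvI, -⟩
  rcases hT hvT with h | h
  · exact h
  · exact absurd ⟨hvT, h⟩ hvI

theorem hgood_iUnion (r : V → V → Prop) (F : Set V) (hF : HGood r F) :
    ∀ (k : ℕ) (I : Fin k → Set V), (∀ j, ∀ a ∈ I j, ∀ b ∈ I j, ¬ r a b) →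
      HGood r (F ∪ ⋃ j, I j) := by
  intro k
  induction k with
  | zero =>
    intro I _
    simpa using hF
  | succ k ih =>
    intro I hI
    have h1 := ih (fun j => I j.succ) (fun j => hI j.succ)
    have h2 := hgood_union r _ (I 0) h1 (hI 0)
    intro T hT
    apply h2 T
    refine hT.trans ?_
    rintro v (hv | hv)
    · exact Or.inl (Or.inl hv)
    · obtain ⟨j, hj⟩ := mem_iUnion.1 hv
      refine Fin.cases ?_ ?_ j hj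
      · intro h; exact Or.inr h
      · intro i h; exact Or.inl (Or.inr (mem_iUnion.2 ⟨i, h⟩))

end Aux

/-- Let `G` be a loopless digraph such that for every infinite sequence `x 0, x 1, ...` of
distinct pairwise nonadjacent vertices some finite initial part `x 0, ..., x (n-1)` has a set of
common non-neighbours that is covered by a set without infinite independent subset together with
finitely many independent sets. Then `G` satisfies the kernel-sink conjecture. -/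
theorem result {V : Type*} (G : Digraph V) (hloop : ∀ v, ¬ G.Adj v v)
    (h : ∀ x : ℕ → V, (∀ i j, i ≠ j → x i ≠ x j ∧ ¬ G.Adj (x i) (x j)) →
      ∃ (n k : ℕ) (F : Set V) (I : Fin k → Set V),
        (∀ T ⊆ F, (∀ a ∈ T, ∀ b ∈ T, ¬ G.Adj a b) → T.Finite) ∧
        (∀ j, ∀ a ∈ I j, ∀ b ∈ I j, ¬ G.Adj a b) ∧
        ∀ v, (∀ i < n, v ≠ x i ∧ ¬ G.Adj (x i) v ∧ ¬ G.Adj v (x i)) → v ∈ F ∪ ⋃ j, I j) :
    ∃ W : Set V,
      (∃ A ⊆ W, (∀ a ∈ A, ∀ b ∈ A, ¬ G.Adj a b) ∧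
        ∀ v ∈ W, v ∈ A ∨ ∃ a ∈ A, G.Adj a v ∨ ∃ u ∈ W, G.Adj a u ∧ G.Adj u v) ∧
      (∃ B ⊆ Wᶜ, (∀ a ∈ B, ∀ b ∈ B, ¬ G.Adj a b) ∧
        ∀ v ∈ Wᶜ, v ∈ B ∨ ∃ b ∈ B, G.Adj v b ∨ ∃ u ∈ Wᶜ, G.Adj v u ∧ G.Adj u b) := by
  have hgood : Good G.Adj Set.univ := by
    by_contra hbad
    obtain ⟨x, R, -, hRb, hx, hR⟩ := exists_seq G.Adj hloop Set.univ hbad
    obtain ⟨-, h2, h3⟩ := seq_facts G.Adj x R hx hR
    obtain ⟨n, k, F, I, hF, hI, hcov⟩ := h x h3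
    have hH := hgood_iUnion G.Adj F (hgood_of_finite_indep G.Adj hloop F hF) k I hI
    exact hRb n (hH (R n) fun v hv => hcov v fun i hi => h2 i n hi v hv)
  obtain ⟨W, -, ⟨A, hA1, hA2, hA3⟩, ⟨B, hB1, hB2, hB3⟩⟩ := hgood
  have hc : Set.univ \ W = Wᶜ := by ext v; simp
  rw [hc] at hB1 hB3
  refine ⟨W, ⟨A, hA1, hA2, hA3⟩, ⟨B, hB1, fun a ha b hb => hB2 b hb a ha, ?_⟩⟩
  intro v hv
  rcases hB3 v hv with h1 | ⟨b, hb, h1 | ⟨u, hu, h1, h2⟩⟩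
  · exact Or.inl h1
  · exact Or.inr ⟨b, hb, Or.inl h1⟩
  · exact Or.inr ⟨b, hb, Or.inr ⟨u, hu, h2, h1⟩⟩

end Pool.Agent.Results.MP_9317e9_co.FiniteTail
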