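import Mathlib

set_option autoImplicit false

namespace Pool.Agent.Results.MP_9317e9_co.NoInfiniteIndependent

universe u

variable {V : Type u}

/-- `A` is independent: no edge of the digraph with edge relation `E` joins two elements of `A`. -/
def Indep (E : V → V → Prop) (A : Set V) : Prop :=
  ∀ a ∈ A, ∀ b ∈ A, ¬ E a b

/-- `A` is a quasi-kernel of the subdigraph induced on `W`: `A ⊆ W` is independent, and every
vertex of `W` is reached from `A` by a directed path with at most two edges, inside `W`. -/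
def IsQuasiKernel (E : V → V → Prop) (W A : Set V) : Prop :=
  A ⊆ W ∧ Indep E A ∧ ∀ v ∈ W, v ∈ A ∨ ∃ a ∈ A, E a v ∨ ∃ w ∈ W, E a w ∧ E w v

/-- `B` is a quasi-sink of the subdigraph induced on `W`: `B ⊆ W` is independent, and from every
vertex of `W` a directed path with at most two edges, inside `W`, leads to `B`. -/
def IsQuasiSink (E : V → V → Prop) (W B : Set V) : Prop :=
  B ⊆ W ∧ Indep E B ∧ ∀ v ∈ W, v ∈ B ∨ ∃ b ∈ B, E v b ∨ ∃ w ∈ W, E v w ∧ E w b

/-- The subdigraph induced on `H` has a partition `(W₀, W₁)` such that `G[W₀]` has a quasi-kernel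
and `G[W₁]` has a quasi-sink. -/
def KernelSink (E : V → V → Prop) (H : Set V) : Prop :=
  ∃ W₀ W₁ : Set V, W₀ ∪ W₁ = H ∧ Disjoint W₀ W₁ ∧
    (∃ A, IsQuasiKernel E W₀ A) ∧ ∃ B, IsQuasiSink E W₁ B

/-- Removing a disjoint pair of independent sets: it suffices to treat the set of vertices which
are neither in `A ∪ B` nor dominated by `A` nor dominating a vertex of `B`. -/
lemma pair_removal {E : V → V → Prop} {H A B : Set V} (hA : A ⊆ H) (hB : B ⊆ H)
    (hAB : Disjoint A B) (iA : Indep E A) (iB : Indep E B)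
    (h : KernelSink E {x | x ∈ H ∧ x ∉ A ∧ x ∉ B ∧ (∀ a ∈ A, ¬ E a x) ∧ ∀ b ∈ B, ¬ E x b}) :
    KernelSink E H := by
  classical
  obtain ⟨X0, X1, hU, hD, ⟨A', hA'sub, hA'ind, hA'cov⟩, ⟨B', hB'sub, hB'ind, hB'cov⟩⟩ := h
  have hX0 : ∀ x ∈ X0, x ∈ H ∧ x ∉ A ∧ x ∉ B ∧ (∀ a ∈ A, ¬ E a x) ∧ ∀ b ∈ B, ¬ E x b := by
    intro x hx
    have : x ∈ X0 ∪ X1 := Or.inl hx
    rw [hU] at this
    exact this
  have hX1 : ∀ x ∈ X1, x ∈ H ∧ x ∉ A ∧ x ∉ B ∧ (∀ a ∈ A, ¬ E a x) ∧ ∀ b ∈ B, ¬ E x b := by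
    intro x hx
    have : x ∈ X0 ∪ X1 := Or.inr hx
    rw [hU] at this
    exact this
  have hX : ∀ x, x ∈ H → x ∉ A → x ∉ B → (∀ a ∈ A, ¬ E a x) → (∀ b ∈ B, ¬ E x b) →
      x ∈ X0 ∨ x ∈ X1 := by
    intro x h1 h2 h3 h4 h5
    have : x ∈ X0 ∪ X1 := by
      rw [hU]
      exact ⟨h1, h2, h3, h4, h5⟩
    exact this
  set W0 : Set V := X0 ∪ A ∪ {v | v ∈ H ∧ v ∉ B ∧ ∃ a ∈ A, E a v} with hW0
  have hdisj : ∀ x, x ∈ A → x ∉ B := fun x h1 h2 => Set.disjoint_left.mp hAB h1 h2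
  have hX01 : ∀ x, x ∈ X0 → x ∉ X1 := fun x h1 h2 => Set.disjoint_left.mp hD h1 h2
  have hW0H : W0 ⊆ H := by
    intro x hx
    rcases hx with (hx | hx) | hx
    · exact (hX0 x hx).1
    · exact hA hx
    · exact hx.1
  -- elements of `B` and of `X1` are outside `W0`
  have hBW : ∀ b ∈ B, b ∈ H \ W0 := by
    intro b hb
    refine ⟨hB hb, ?_⟩
    rintro ((hx | hx) | hx)
    · exact (hX0 b hx).2.2.1 hb
    · exact hdisj b hx hb
    · exact hx.2.1 hb
  have hX1W : ∀ x ∈ X1, x ∈ H \ W0 := by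
    intro x hx
    refine ⟨(hX1 x hx).1, ?_⟩
    rintro ((hx' | hx') | hx')
    · exact hX01 x hx' hx
    · exact (hX1 x hx).2.1 hx'
    · obtain ⟨a, ha, hax⟩ := hx'.2.2
      exact (hX1 x hx).2.2.2.1 a ha hax
  refine ⟨W0, H \ W0, Set.union_sdiff_cancel hW0H, Set.disjoint_sdiff_right,
    ⟨A' ∪ {a | a ∈ A ∧ ∀ a' ∈ A', ¬ E a' a}, ?_, ?_, ?_⟩,
    ⟨B' ∪ {b | b ∈ B ∧ ∀ b' ∈ B', ¬ E b b'}, ?_, ?_, ?_⟩⟩
  · rintro x (hx | hx)
    · exact Or.inl (Or.inl (hA'sub hx))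
    · exact Or.inl (Or.inr hx.1)
  · rintro x (hx | hx) y (hy | hy) hxy
    · exact hA'ind x hx y hy hxy
    · exact hy.2 x hx hxy
    · exact (hX0 y (hA'sub hy)).2.2.2.1 x hx.1 hxy
    · exact iA x hx.1 y hy.1 hxy
  · rintro v ((hv | hv) | hv)
    · rcases hA'cov v hv with h1 | ⟨a, ha, h2 | ⟨w, hw, h3, h4⟩⟩
      · exact Or.inl (Or.inl h1)
      · exact Or.inr ⟨a, Or.inl ha, Or.inl h2⟩
      · exact Or.inr ⟨a, Or.inl ha, Or.inr ⟨w, Or.inl (Or.inl hw), h3, h4⟩⟩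
    · by_cases hc : ∀ a' ∈ A', ¬ E a' v
      · exact Or.inl (Or.inr ⟨hv, hc⟩)
      · push Not at hc
        obtain ⟨a', ha', hav⟩ := hc
        exact Or.inr ⟨a', Or.inl ha', Or.inl hav⟩
    · obtain ⟨-, -, a, ha, hav⟩ := hv
      by_cases hc : ∀ a' ∈ A', ¬ E a' a
      · exact Or.inr ⟨a, Or.inr ⟨ha, hc⟩, Or.inl hav⟩
      · push Not at hc
        obtain ⟨a', ha', haa⟩ := hc
        exact Or.inr ⟨a', Or.inl ha', Or.inr ⟨a, Or.inl (Or.inr ha), haa, hav⟩⟩
  · rintro x (hx | hx)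
    · exact hX1W x (hB'sub hx)
    · exact hBW x hx.1
  · rintro x (hx | hx) y (hy | hy) hxy
    · exact hB'ind x hx y hy hxy
    · exact (hX1 x (hB'sub hx)).2.2.2.2 y hy.1 hxy
    · exact hx.2 y hy hxy
    · exact iB x hx.1 y hy.1 hxy
  · rintro v ⟨hvH, hvW⟩
    by_cases hvB : v ∈ B
    · by_cases hc : ∀ b' ∈ B', ¬ E v b'
      · exact Or.inl (Or.inr ⟨hvB, hc⟩)
      · push Not at hc
        obtain ⟨b', hb', hvb⟩ := hc
        exact Or.inr ⟨b', Or.inl hb', Or.inl hvb⟩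
    · by_cases hvX : v ∈ X1
      · rcases hB'cov v hvX with h1 | ⟨b, hb, h2 | ⟨w, hw, h3, h4⟩⟩
        · exact Or.inl (Or.inl h1)
        · exact Or.inr ⟨b, Or.inl hb, Or.inl h2⟩
        · exact Or.inr ⟨b, Or.inl hb, Or.inr ⟨w, hX1W w hw, h3, h4⟩⟩
      · have h1 : v ∉ A := fun h => hvW (Or.inl (Or.inr h))
        have h2 : ∀ a ∈ A, ¬ E a v := fun a ha hav => hvW (Or.inr ⟨hvH, hvB, a, ha, hav⟩)
        have h3 : ∃ b ∈ B, E v b := by
          by_contra hcon
          push Not at hcon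
          rcases hX v hvH h1 hvB h2 hcon with h | h
          · exact hvW (Or.inl (Or.inl h))
          · exact hvX h
        obtain ⟨b, hb, hvb⟩ := h3
        by_cases hc : ∀ b' ∈ B', ¬ E b b'
        · exact Or.inr ⟨b, Or.inr ⟨hb, hc⟩, Or.inl hvb⟩
        · push Not at hc
          obtain ⟨b', hb', hbb⟩ := hc
          exact Or.inr ⟨b', Or.inl hb', Or.inr ⟨b, hBW b hb, hvb, hbb⟩⟩

/-- Every set contains a maximal independent set. -/
lemma exists_maximal_indep (E : V → V → Prop) (H : Set V) :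
    ∃ S : Set V, S ⊆ H ∧ Indep E S ∧ ∀ T : Set V, T ⊆ H → Indep E T → S ⊆ T → T = S := by
  obtain ⟨S, hS⟩ := zorn_subset {S : Set V | S ⊆ H ∧ Indep E S} (by
    intro c hc hchain
    refine ⟨⋃₀ c, ⟨Set.sUnion_subset fun s hs => (hc hs).1, ?_⟩,
      fun s hs => Set.subset_sUnion_of_mem hs⟩
    rintro a ⟨s, hs, has⟩ b ⟨t, ht, hbt⟩
    rcases hchain.total hs ht with hst | hst
    · exact (hc ht).2 a (hst has) b hbt
    · exact (hc hs).2 a has b (hst hbt))
  refine ⟨S, hS.prop.1, hS.prop.2, fun T hT hTi hST => ?_⟩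
  exact Set.Subset.antisymm (hS.le_of_ge ⟨hT, hTi⟩ hST) hST

/-- A maximal independent set of `H` is adjacent to every other vertex of `H`. -/
lemma adj_of_maximal {E : V → V → Prop} (hE : ∀ v, ¬ E v v) {H S : Set V} (hS : S ⊆ H)
    (iS : Indep E S) (mS : ∀ T : Set V, T ⊆ H → Indep E T → S ⊆ T → T = S) {x : V}
    (hx : x ∈ H) (hxS : x ∉ S) : ∃ s ∈ S, E s x ∨ E x s := by
  by_contra hcon
  push Not at hcon
  apply hxS
  have : insert x S = S := by
    apply mS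
    · exact Set.insert_subset hx hS
    · rintro a (rfl | ha) b (rfl | hb) hab
      · exact hE _ hab
      · exact (hcon b hb).2 hab
      · exact (hcon a ha).1 hab
      · exact iS a ha b hb hab
    · exact Set.subset_insert x S
  rw [← this]
  exact Set.mem_insert x S

/-- One step: a counterexample `H` contains a vertex `v` and a counterexample `X ⊆ H` in which `v`
has no neighbour. -/
lemma step {E : V → V → Prop} (hE : ∀ v, ¬ E v v) {H : Set V} (hbad : ¬ KernelSink E H) :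
    ∃ v ∈ H, ∃ X : Set V, X ⊆ H ∧ ¬ KernelSink E X ∧ ∀ x ∈ X, x ≠ v ∧ ¬ E v x ∧ ¬ E x v := by
  obtain ⟨S, hSH, iS, mS⟩ := exists_maximal_indep E H
  have hnq : ¬ IsQuasiKernel E H S := by
    intro hq
    apply hbad
    refine ⟨H, ∅, Set.union_empty H, Set.disjoint_empty H, ⟨S, hq⟩, ∅, Set.Subset.refl _, ?_, ?_⟩
    · intro a ha
      exact absurd ha (Set.notMem_empty a)
    · intro a ha
      exact absurd ha (Set.notMem_empty a)
  have hex : ∃ v ∈ H, v ∉ S ∧ ∀ a ∈ S, ¬ E a v ∧ ∀ w ∈ H, E a w → ¬ E w v := by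
    by_contra hcon
    apply hnq
    refine ⟨hSH, iS, fun v hv => ?_⟩
    by_contra hv'
    apply hcon
    push Not at hv'
    refine ⟨v, hv, hv'.1, fun a ha => ⟨(hv'.2 a ha).1, (hv'.2 a ha).2⟩⟩
  obtain ⟨v, hvH, hvS, hv⟩ := hex
  refine ⟨v, hvH, {x | x ∈ H ∧ x ∉ ({v} : Set V) ∧ x ∉ S ∧ (∀ a ∈ ({v} : Set V), ¬ E a x) ∧
    ∀ b ∈ S, ¬ E x b}, fun x hx => hx.1, ?_, ?_⟩
  · intro hgood
    apply hbad
    refine pair_removal (A := {v}) (B := S) (by simpa using hvH) hSH ?_ ?_ iS hgood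
    · rw [Set.disjoint_singleton_left]
      exact hvS
    · rintro a rfl b rfl
      exact hE _
  · rintro x ⟨hxH, hxv, hxS, hvx, hxB⟩
    refine ⟨by simpa using hxv, hvx v rfl, ?_⟩
    obtain ⟨s, hs, hsx | hxs⟩ := adj_of_maximal hE hSH iS mS hxH hxS
    · exact (hv s hs).2 x hxH hsx
    · exact absurd hxs (hxB s hs)

/-- A counterexample contains an infinite independent set. -/
lemma exists_infinite_indep {E : V → V → Prop} (hE : ∀ v, ¬ E v v) {H : Set V}
    (hbad : ¬ KernelSink E H) : ∃ I : Set V, I ⊆ H ∧ I.Infinite ∧ Indep E I := by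
  classical
  choose! f hf X hXsub hXbad hX using
    fun (H : {H : Set V // ¬ KernelSink E H}) => step hE H.2
  let seq : ℕ → {H : Set V // ¬ KernelSink E H} := fun n =>
    Nat.rec ⟨H, hbad⟩ (fun _ K => ⟨X K, hXbad K⟩) n
  have hsucc : ∀ n, (seq (n + 1)).1 = X (seq n) := fun n => rfl
  have hmono : ∀ n m, n ≤ m → (seq m).1 ⊆ (seq n).1 := by
    intro n m hnm
    induction m, hnm using Nat.le_induction with
    | base => exact Set.Subset.refl _
    | succ m _ ih =>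
      rw [hsucc]
      exact (hXsub (seq m)).trans ih
  have hlt : ∀ n m, n < m → f (seq m) ≠ f (seq n) ∧ ¬ E (f (seq n)) (f (seq m)) ∧
      ¬ E (f (seq m)) (f (seq n)) := by
    intro n m hnm
    have h1 : f (seq m) ∈ X (seq n) := by
      have := hmono (n + 1) m hnm (hf (seq m))
      rwa [hsucc] at this
    exact hX (seq n) _ h1
  have hinj : Function.Injective fun n => f (seq n) := by
    intro n m hnm
    rcases lt_trichotomy n m with h | h | h
    · exact absurd hnm.symm (hlt n m h).1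
    · exact h
    · exact absurd hnm (hlt m n h).1
  refine ⟨Set.range fun n => f (seq n), ?_, Set.infinite_range_of_injective hinj, ?_⟩
  · rintro _ ⟨n, rfl⟩
    exact hmono 0 n (Nat.zero_le n) (hf (seq n))
  · rintro _ ⟨n, rfl⟩ _ ⟨m, rfl⟩
    rcases lt_trichotomy n m with h | h | h
    · exact (hlt n m h).2.1
    · subst h
      exact hE _
    · exact (hlt m n h).2.2

/-- Finitely many independent sets can be removed from a counterexample. -/
lemma remove_classes {E : V → V → Prop} (k : ℕ) : ∀ (I : Fin k → Set V), (∀ i, Indep E (I i)) →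
    ∀ H : Set V, ¬ KernelSink E H → ∃ X ⊆ H, ¬ KernelSink E X ∧ ∀ i, Disjoint X (I i) := by
  induction k with
  | zero =>
    intro I _ H hbad
    exact ⟨H, Set.Subset.refl _, hbad, fun i => i.elim0⟩
  | succ k ih =>
    intro I hI H hbad
    obtain ⟨X, hXH, hXbad, hXd⟩ := ih (fun i => I i.succ) (fun i => hI i.succ) H hbad
    refine ⟨{x | x ∈ X ∧ x ∉ (∅ : Set V) ∧ x ∉ I 0 ∩ X ∧ (∀ a ∈ (∅ : Set V), ¬ E a x) ∧
      ∀ b ∈ I 0 ∩ X, ¬ E x b}, fun x hx => hXH hx.1, ?_, ?_⟩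
    · intro hgood
      apply hXbad
      refine pair_removal (A := ∅) (B := I 0 ∩ X) (Set.empty_subset _) Set.inter_subset_right
        (Set.empty_disjoint _) ?_ ?_ hgood
      · intro a ha
        exact absurd ha (Set.notMem_empty a)
      · intro a ha b hb
        exact hI 0 a ha.1 b hb.1
    · intro i
      refine Fin.cases ?_ (fun j => ?_) i
      · rw [Set.disjoint_left]
        intro x hx hx0
        exact hx.2.2.1 ⟨hx0, hx.1⟩
      · exact (hXd j).mono_left fun x hx => hx.1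

/-- The transitive case. -/
lemma transitive_case {E : V → V → Prop} (hE : ∀ v, ¬ E v v)
    (hT : ∀ a b c, E a b → E b c → E a c) : KernelSink E (Set.univ : Set V) := by
  classical
  obtain ⟨S, hSH, iS, mS⟩ := exists_maximal_indep E (Set.univ : Set V)
  have hadj : ∀ x, x ∉ S → ∃ s ∈ S, E s x ∨ E x s := fun x hx =>
    adj_of_maximal hE hSH iS mS (Set.mem_univ x) hx
  have hasym : ∀ a b, E a b → ¬ E b a := fun a b h1 h2 => hE a (hT a b a h1 h2)
  let r : V → V → Prop := WellOrderingRel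
  have hwf : WellFounded r := WellOrderingRel.isWellOrder.wf
  -- the elements of `S` which are least below some vertex
  let K : Set V := {s | s ∈ S ∧ ∃ w, E s w ∧ ∀ s' ∈ S, r s' s → ¬ E s' w}
  have hK : ∀ s ∈ K, ∃ w, E s w ∧ ∀ s' ∈ S, r s' s → ¬ E s' w := fun s hs => hs.2
  choose! b hb1 hb2 using hK
  have hkey : ∀ s ∈ K, ∀ s' ∈ K, E (b s) (b s') → r s' s := by
    intro s hs s' hs' hbb
    rcases trichotomous_of r s s' with h | h | h
    · exact absurd (hT _ _ _ (hb1 s hs) hbb) (hb2 s' hs' s hs.1 h)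
    · subst h
      exact absurd hbb (hE _)
    · exact h
  let B1 : Set V := {x | ∃ s ∈ K, x = b s ∧ ∀ s' ∈ K, ¬ E (b s) (b s')}
  have hB1top : ∀ s ∈ K, ∃ x ∈ B1, b s = x ∨ E (b s) x := by
    intro s hs
    have hne : ({t | t ∈ K ∧ (b s = b t ∨ E (b s) (b t))} : Set V).Nonempty :=
      ⟨s, hs, Or.inl rfl⟩
    obtain ⟨ht1, ht2⟩ := hwf.min_mem _ hne
    set t := hwf.min _ hne with ht
    refine ⟨b t, ⟨t, ht1, rfl, fun s' hs' hbb => ?_⟩, ht2⟩
    have h1 : r s' t := hkey t ht1 s' hs' hbb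
    have h2 : s' ∈ {t | t ∈ K ∧ (b s = b t ∨ E (b s) (b t))} := by
      refine ⟨hs', Or.inr ?_⟩
      rcases ht2 with h | h
      · rw [h]; exact hbb
      · exact hT _ _ _ h hbb
    exact hwf.not_lt_min _ h2 h1
  have hB1up : ∀ x ∈ B1, ∃ s ∈ S, E s x := by
    rintro x ⟨s, hs, rfl, -⟩
    exact ⟨s, hs.1, hb1 s hs⟩
  have hB1S : ∀ x ∈ B1, x ∉ S := by
    intro x hx hxS
    obtain ⟨s, hs, hsx⟩ := hB1up x hx
    exact iS s hs x hxS hsx
  have hB1ind : Indep E B1 := by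
    rintro x ⟨s, hs, rfl, h1⟩ y ⟨s', hs', rfl, -⟩
    exact h1 s' hs'
  -- every vertex above `S` is above `K`
  have hKcov : ∀ x, (∃ s ∈ S, E s x) → ∃ s ∈ K, E s x := by
    rintro x hx
    have hne : ({s | s ∈ S ∧ E s x} : Set V).Nonempty := hx
    obtain ⟨h1, h2⟩ := hwf.min_mem _ hne
    refine ⟨hwf.min _ hne, ⟨h1, x, h2, fun s' hs' hr hs'x => ?_⟩, h2⟩
    exact hwf.not_lt_min _ (show s' ∈ {s | s ∈ S ∧ E s x} from ⟨hs', hs'x⟩) hr
  let W0 : Set V := K ∪ {x | (∃ s ∈ S, E s x) ∧ x ∉ B1}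
  refine ⟨W0, W0ᶜ, Set.union_compl_self W0, disjoint_compl_right, ⟨K, ?_, ?_, ?_⟩,
    ⟨B1 ∪ {s | s ∈ S ∧ s ∉ K ∧ ∀ x ∈ B1, ¬ E s x}, ?_, ?_, ?_⟩⟩
  · exact Set.subset_union_left
  · intro a ha c hc
    exact iS a ha.1 c hc.1
  · rintro v (hv | hv)
    · exact Or.inl hv
    · obtain ⟨s, hs, hsv⟩ := hKcov v hv.1
      exact Or.inr ⟨s, hs, Or.inl hsv⟩
  · rintro x (hx | hx)
    · rintro (h | h)
      · exact hB1S x hx h.1
      · exact h.2 hx
    · rintro (h | h)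
      · exact hx.2.1 h
      · obtain ⟨s, hs, hsx⟩ := h.1
        exact iS s hs x hx.1 hsx
  · rintro x (hx | hx) y (hy | hy) hxy
    · exact hB1ind x hx y hy hxy
    · obtain ⟨s, hs, hsx⟩ := hB1up x hx
      exact iS s hs y hy.1 (hT _ _ _ hsx hxy)
    · exact hx.2.2 y hy hxy
    · exact iS x hx.1 y hy.1 hxy
  · intro v hv
    have hvK : v ∉ K := fun h => hv (Or.inl h)
    by_cases hvB : v ∈ B1
    · exact Or.inl (Or.inl hvB)
    by_cases hvS : v ∈ S
    · by_cases hc : ∀ x ∈ B1, ¬ E v x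
      · exact Or.inl (Or.inr ⟨hvS, hvK, hc⟩)
      · push Not at hc
        obtain ⟨x, hx, hvx⟩ := hc
        exact Or.inr ⟨x, Or.inl hx, Or.inl hvx⟩
    · obtain ⟨s, hs, hsv | hvs⟩ := hadj v hvS
      · exact absurd (Or.inr ⟨⟨s, hs, hsv⟩, hvB⟩) hv
      · by_cases hsK : s ∈ K
        · obtain ⟨x, hx, hsx⟩ := hB1top s hsK
          refine Or.inr ⟨x, Or.inl hx, Or.inl ?_⟩
          have h1 : E v (b s) := hT _ _ _ hvs (hb1 s hsK)
          rcases hsx with h | h
          · rw [← h]; exact h1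
          · exact hT _ _ _ h1 h
        · by_cases hc : ∀ x ∈ B1, ¬ E s x
          · exact Or.inr ⟨s, Or.inr ⟨hs, hsK, hc⟩, Or.inl hvs⟩
          · push Not at hc
            obtain ⟨x, hx, hsx⟩ := hc
            exact Or.inr ⟨x, Or.inl hx, Or.inl (hT _ _ _ hvs hsx)⟩

/-- The kernel-sink conjecture for two classes of digraphs, of any cardinality:
(a) the vertex set is the union of finitely many independent sets and of one set which has no
infinite independent subset; (b) the edge relation is transitive. -/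
theorem result :
    (∀ (V : Type u) (E : V → V → Prop), (∀ v, ¬ E v v) →
      ∀ (k : ℕ) (I : Fin k → Set V) (T : Set V), (∀ i, Indep E (I i)) →
        (∀ J : Set V, J ⊆ T → Indep E J → J.Finite) → (⋃ i, I i) ∪ T = Set.univ →
        KernelSink E (Set.univ : Set V)) ∧
    (∀ (V : Type u) (E : V → V → Prop), (∀ v, ¬ E v v) →
      (∀ a b c, E a b → E b c → E a c) → KernelSink E (Set.univ : Set V)) := by
  refine ⟨?_, fun V E hE hT => transitive_case hE hT⟩
  intro V E hE k I T hI hTfin hcov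
  by_contra hbad
  obtain ⟨X, -, hXbad, hXd⟩ := remove_classes k I hI _ hbad
  obtain ⟨J, hJX, hJinf, hJ⟩ := exists_infinite_indep hE hXbad
  apply hJinf
  apply hTfin J _ hJ
  intro x hx
  have h1 : x ∈ (⋃ i, I i) ∪ T := by
    rw [hcov]
    exact Set.mem_univ x
  rcases h1 with h | h
  · obtain ⟨i, hi⟩ := Set.mem_iUnion.mp h
    exact absurd hi (Set.disjoint_left.mp (hXd i) (hJX hx))
  · exact h

end Pool.Agent.Results.MP_9317e9_co.NoInfiniteIndependent
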